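import Pool.Agent.D0H67.TS.SStm

/-! Project TS, module SAIND: algebraically independent minors of the generic symmetric matrix
(variant of `Pool.Agent.D0H20.TS.Aind`). -/

set_option autoImplicit false

namespace Pool.Agent.D0H70.TS

open MvPolynomial
open Pool.Agent.D0H67.TS (minS)

/-- the generic principal submatrix -/
noncomputable def Bs {m : Type} {l : ℕ} (a : Fin l → m) :
    Matrix (Fin l) (Fin l) (MvPolynomial (Sym2 m) ℂ) := Matrix.of fun i j => X s(a i, a j)

theorem det_Bs_ne {m : Type} {l : ℕ} {a : Fin l → m} (ha : Function.Injective a) :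
    (Bs a).det ≠ 0 := by
  classical
  intro h
  let u : Sym2 m → ℂ := fun p => if p.IsDiag then 1 else 0
  have h1 : eval u (Bs a).det = 1 := by
    have h2 : eval u (Bs a).det = ((eval u).mapMatrix (Bs a)).det := RingHom.map_det _ _
    rw [h2]
    have h3 : (eval u).mapMatrix (Bs a) = 1 := by
      ext i j
      simp only [RingHom.mapMatrix_apply, Matrix.map_apply, Bs, Matrix.of_apply, eval_X, u,
        Sym2.mk_isDiag_iff]
      by_cases hij : i = j
      · subst hij
        rw [Matrix.one_apply_eq, if_pos rfl]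
      · rw [Matrix.one_apply_ne hij, if_neg]
        intro h4
        exact hij (ha h4)
    rw [h3, Matrix.det_one]
  rw [h, map_zero] at h1
  exact zero_ne_one h1

theorem exists_inj2 {α : Type} [Fintype α] (x y : α) (k : ℕ) (hk1 : 1 ≤ k)
    (hk : k < Fintype.card α) :
    ∃ a : Fin (k + 1) → α, Function.Injective a ∧ ∃ i j, a i = x ∧ a j = y := by
  classical
  obtain ⟨t, ht, htc⟩ := Finset.exists_superset_card_eq (s := ({x, y} : Finset α)) (n := k + 1)
    (Finset.card_le_two.trans (by omega)) hk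
  let e : t ≃ Fin (k + 1) := Finset.equivFinOfCardEq htc
  refine ⟨fun i => (e.symm i : α), fun i j hij => e.symm.injective (Subtype.ext hij),
    e ⟨x, ht (by simp)⟩, e ⟨y, ht (by simp)⟩, by simp, by simp⟩

theorem aeval_aux {A R : Type} [CommRing A] [CommRing R] [Algebra A R] (x : R) (y z : A) (k : ℕ) :
    Polynomial.aeval x (Polynomial.C y * Polynomial.X ^ k - Polynomial.C z) =
      algebraMap A R y * x ^ k - algebraMap A R z := by
  simp

theorem algebraic_X {m : Type} [Fintype m] (k : ℕ) (hk : 1 ≤ k)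
    (hm : k < Fintype.card m) (p : Sym2 m) :
    IsAlgebraic (Algebra.adjoin ℂ (Set.range (minS m k))) (X p : MvPolynomial (Sym2 m) ℂ) := by
  classical
  induction p using Sym2.ind with
  | _ x y =>
  obtain ⟨a, ha, i₀, j₀, hi, hj⟩ := exists_inj2 x y k hk hm
  set A₀ := Algebra.adjoin ℂ (Set.range (minS m k)) with hA₀
  set B := Bs a with hB
  have hd : B.det ≠ 0 := det_Bs_ne ha
  have hmem : ∀ i j, B.adjugate i j ∈ A₀ := by
    intro i j
    rw [Matrix.adjugate_fin_succ_eq_det_submatrix]
    have h1 : (B.submatrix j.succAbove i.succAbove).det =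
        minS m k (a ∘ j.succAbove, a ∘ i.succAbove) := rfl
    rw [h1]
    exact A₀.mul_mem (A₀.pow_mem (A₀.neg_mem A₀.one_mem) _)
      (Algebra.subset_adjoin (Set.mem_range_self _))
  let M : Matrix (Fin (k + 1)) (Fin (k + 1)) A₀ := Matrix.of fun i j => ⟨B.adjugate i j, hmem i j⟩
  let f : A₀ →+* MvPolynomial (Sym2 m) ℂ := A₀.val.toRingHom
  have hM : f.mapMatrix M = B.adjugate := by
    ext i j
    rfl
  have he : f M.det = B.det ^ k := by
    rw [RingHom.map_det, hM, Matrix.det_adjugate, Fintype.card_fin, Nat.add_sub_cancel]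
  have hc : f (M.adjugate i₀ j₀) = B.det ^ (k - 1) * X s(x, y) := by
    have h1 : f.mapMatrix M.adjugate = B.adjugate.adjugate := by
      rw [RingHom.map_adjugate, hM]
    have h2 : f (M.adjugate i₀ j₀) = (f.mapMatrix M.adjugate) i₀ j₀ := rfl
    rw [h2, h1, Matrix.adjugate_adjugate _ (by rw [Fintype.card_fin]; omega), Fintype.card_fin,
      Matrix.smul_apply, smul_eq_mul]
    have h3 : B i₀ j₀ = X s(x, y) := by
      rw [hB]
      simp only [Bs, Matrix.of_apply, hi, hj]
    rw [h3]
    congr 2
  refine ⟨Polynomial.C (M.det ^ (k - 1)) * Polynomial.X ^ k - Polynomial.C (M.adjugate i₀ j₀ ^ k),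
    ?_, ?_⟩
  · intro h
    have h1 := congrArg (fun q => Polynomial.coeff q k) h
    simp only [Polynomial.coeff_sub, Polynomial.coeff_C_mul, Polynomial.coeff_X_pow, if_pos,
      mul_one, Polynomial.coeff_C, if_neg (show k ≠ 0 by omega), sub_zero, Polynomial.coeff_zero] at h1
    have h2 : f (M.det ^ (k - 1)) = 0 := by rw [h1, map_zero]
    rw [map_pow, he] at h2
    exact pow_ne_zero (k - 1) (pow_ne_zero k hd) h2
  · have h1 : ∀ y' z : A₀, Polynomial.aeval (X s(x, y) : MvPolynomial (Sym2 m) ℂ)
        (Polynomial.C y' * Polynomial.X ^ k - Polynomial.C z) = f y' * X s(x, y) ^ k - f z := by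
      intro y' z
      exact aeval_aux _ y' z k
    rw [h1, map_pow, map_pow, he, hc, mul_pow, ← pow_mul, ← pow_mul, mul_comm k (k - 1), sub_self]

theorem aind {m : Type} [Fintype m] (k : ℕ) (hk : 1 ≤ k) (hm : k < Fintype.card m) :
    ∃ ι : Sym2 m → (Fin k → m) × (Fin k → m),
    AlgebraicIndependent ℂ fun i => minS m k (ι i) := by
  classical
  have halg : Algebra.IsAlgebraic (Algebra.adjoin ℂ (Set.range (minS m k)))
      (MvPolynomial (Sym2 m) ℂ) := by
    refine ⟨fun x => ?_⟩
    rw [← Subalgebra.mem_algebraicClosure]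
    induction x using MvPolynomial.induction_on with
    | C c =>
      rw [Subalgebra.mem_algebraicClosure]
      have := isAlgebraic_algebraMap (R := Algebra.adjoin ℂ (Set.range (minS m k)))
        (A := MvPolynomial (Sym2 m) ℂ) (algebraMap ℂ _ c)
      exact this
    | add p q hp hq => exact add_mem hp hq
    | mul_X p i hp => exact mul_mem hp (algebraic_X k hk hm i)
  obtain ⟨t, ht, hbas⟩ := exists_isTranscendenceBasis_subset (R := ℂ) (Set.range (minS m k))
  have hcard : Cardinal.mk (Sym2 m) = Cardinal.mk t := by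
    rw [hbas.cardinalMk_eq_trdeg, MvPolynomial.trdeg_of_isDomain, Cardinal.lift_id]
  obtain ⟨e⟩ := Cardinal.eq.1 hcard
  choose ι hι using fun i => ht (e i).2
  refine ⟨ι, ?_⟩
  have h1 : (fun i => minS m k (ι i)) = (fun x : t => (x : MvPolynomial (Sym2 m) ℂ)) ∘ e := by
    funext i
    exact hι i
  rw [h1]
  exact hbas.1.comp e e.injective

theorem t_SAIND : Pool.Agent.D0H67.TS.S_SAIND := by
  intro m _ k hk hm
  exact aind k hk hm

end Pool.Agent.D0H70.TS
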